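import Pool.Agent.Q44.MX.StmD
import Pool.Agent.Q44.BM.RC

/-!
# MX-EQD: almost all sets are equidistributed
-/

set_option autoImplicit false

open scoped Classical

theorem Pool.Agent.Q65.MX.mer_all0 : ∃ C : ℝ, ∀ y : ℕ, 3 ≤ y →
    |∑ p ∈ (Finset.range (y + 1)).filter (fun p => p.Prime), (1 : ℝ) / p
      - Real.log (Real.log y)| ≤ C := by
  obtain ⟨C, hC⟩ := Q44.BM.mer_cls (m := 1) one_pos {0} (by
    intro a ha
    rw [Finset.mem_singleton] at ha
    subst ha
    exact ⟨one_pos, Nat.coprime_one_right 0⟩)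
  refine ⟨C, fun y hy => ?_⟩
  have h := hC y hy
  have e1 : (Finset.range (y + 1)).filter (fun p => p.Prime ∧ p % 1 ∈ ({0} : Finset ℕ))
      = (Finset.range (y + 1)).filter (fun p => p.Prime) :=
    Finset.filter_congr (fun p _ => ⟨fun h => h.1, fun h => ⟨h, by simp [Nat.mod_one]⟩⟩)
  rw [e1, Finset.card_singleton, Nat.totient_one, Nat.cast_one, div_one, one_mul] at h
  exact h

namespace Pool.Agent.Q65.MX

open Finset Filter Topology
open Q44.BM (Fam SS)
open Pool.Agent.Y703.CX (sm la eL zz)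
open Q44.MX

theorem SS_prime (Φ : Fam) (X : ℕ) (S : Finset ℕ) (hS : S ∈ SS Φ X) : ∀ p ∈ S, p.Prime := by
  unfold SS at hS
  rw [mem_filter] at hS
  exact fun p hp => (hS.2.1 p hp).prime

theorem SS_pf (Φ : Fam) (X : ℕ) (S : Finset ℕ) (hS : S ∈ SS Φ X) :
    (∏ p ∈ S, p).primeFactors = S :=
  Nat.primeFactors_prod (SS_prime Φ X S hS)

theorem SS_Icc (Φ : Fam) (X : ℕ) (S : Finset ℕ) (hS : S ∈ SS Φ X) :
    ∏ p ∈ S, p ∈ Icc 1 X := by
  rw [mem_Icc]
  refine ⟨Finset.prod_pos fun p hp => (SS_prime Φ X S hS p hp).pos, ?_⟩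
  unfold SS at hS
  rw [mem_filter] at hS
  exact hS.2.2

/-- transfer of counts from integers to sets -/
theorem transfer (Φ : Fam) (X : ℕ) (Q : Finset ℕ → Prop) (R : ℕ → Prop)
    {dQ : DecidablePred Q} {dR : DecidablePred R}
    (h : ∀ S ∈ SS Φ X, Q S → R (∏ p ∈ S, p)) :
    ((SS Φ X).filter Q).card ≤ ((Icc 1 X).filter R).card := by
  refine Finset.card_le_card_of_injOn (fun S => ∏ p ∈ S, p) ?_ ?_
  · intro S hS
    rw [coe_filter] at hS
    rw [coe_filter]
    exact ⟨SS_Icc Φ X S hS.1, h S hS.1 hS.2⟩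
  · intro S hS S' hS' hSS
    rw [coe_filter] at hS hS'
    rw [← SS_pf Φ X S hS.1, ← SS_pf Φ X S' hS'.1]
    exact congrArg Nat.primeFactors hSS

theorem card_mult (X p : ℕ) (hp : 0 < p) :
    (((Icc 1 X).filter fun n => p ∣ n).card : ℝ) ≤ (X : ℝ) * (1 / p) := by
  have h1 : ((Icc 1 X).filter fun n => p ∣ n).card = X / p := by
    have := Nat.Ioc_filter_dvd_card_eq_div X p
    rw [← this]
    congr 1
  rw [h1]
  have := @Nat.cast_div_le ℝ _ _ _ X p
  rw [mul_one_div]
  exact this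

/-- the mean number of the small primes -/
theorem sum_sm (Φ : Fam) (X z : ℕ) :
    (∑ S ∈ SS Φ X, ((sm z S).card : ℝ)) ≤
      X * ∑ p ∈ (range (z + 1)).filter (fun p => p.Prime), (1 : ℝ) / p := by
  have h1 : ∀ S ∈ SS Φ X, ((sm z S).card : ℝ) =
      ∑ p ∈ (range (z + 1)).filter (fun p => p.Prime), if p ∈ S then (1 : ℝ) else 0 := by
    intro S hS
    rw [← Finset.sum_filter, Finset.sum_const, nsmul_eq_mul, mul_one]
    congr 2
    ext p
    unfold Pool.Agent.Y703.CX.sm
    simp only [mem_filter, mem_range]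
    constructor
    · rintro ⟨h, h'⟩
      exact ⟨⟨by omega, SS_prime Φ X S hS p h⟩, h⟩
    · rintro ⟨⟨h, _⟩, h'⟩
      exact ⟨h', by omega⟩
  rw [Finset.sum_congr rfl h1, Finset.sum_comm, Finset.mul_sum]
  refine Finset.sum_le_sum (fun p hp => ?_)
  rw [mem_filter] at hp
  rw [← Finset.sum_filter, Finset.sum_const, nsmul_eq_mul, mul_one]
  refine le_trans ?_ (card_mult X p hp.2.pos)
  exact Nat.cast_le.2 (transfer Φ X (fun S => p ∈ S) (fun n => p ∣ n)
    (fun S hS h => Finset.dvd_prod_of_mem _ h))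

theorem mark (Φ : Fam) (X z : ℕ) (y : ℝ) (hy : 0 < y) :
    (((SS Φ X).filter fun S => y < ((sm z S).card : ℝ)).card : ℝ) * y ≤
      X * ∑ p ∈ (range (z + 1)).filter (fun p => p.Prime), (1 : ℝ) / p := by
  refine le_trans ?_ (sum_sm Φ X z)
  calc (((SS Φ X).filter fun S => y < ((sm z S).card : ℝ)).card : ℝ) * y
      = ∑ S ∈ (SS Φ X).filter (fun S => y < ((sm z S).card : ℝ)), y := by
        rw [Finset.sum_const, nsmul_eq_mul]
    _ ≤ ∑ S ∈ (SS Φ X).filter (fun S => y < ((sm z S).card : ℝ)), ((sm z S).card : ℝ) := by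
        refine Finset.sum_le_sum (fun S hS => ?_)
        rw [mem_filter] at hS
        exact hS.2.le
    _ ≤ _ := by
        refine Finset.sum_le_sum_of_subset_of_nonneg (filter_subset _ _) (fun S _ _ => ?_)
        positivity

/-- the deterministic part -/
theorem good {I : Type} (cl : I → ℕ → Prop) (w θ θ₁ L y : ℝ) (n₀ z : ℕ) (hw : 0 ≤ w) (hθ : 0 < θ)
    (hθ₁ : 0 < θ₁) (h1 : θ₁ ≤ 1 / 4) (h2 : θ₁ * (4 * (1 + w)) ≤ θ) (hL : 0 < L) (hn : (n₀ : ℝ) ≤ L / 2)
    (hy0 : 0 ≤ y) (hy : y ≤ θ₁ * L) (hy2 : y ^ 2 ≤ θ * (L / 2)) (S : Finset ℕ)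
    (ha : ∀ i, |((S.filter fun p => cl i p).card : ℝ) - w * L| ≤ θ₁ * L)
    (hb : |(S.card : ℝ) - L| ≤ θ₁ * L) (hc : ((sm z S).card : ℝ) ≤ y) :
    Eqd cl w θ n₀ (sm z S) (la z S) := by
  have hcard : ((sm z S).card : ℝ) + ((la z S).card : ℝ) = (S.card : ℝ) := by
    have := Finset.card_filter_add_card_filter_not (s := S) (fun p => p ≤ z)
    unfold Pool.Agent.Y703.CX.sm Pool.Agent.Y703.CX.la
    exact_mod_cast this
  have hs0 : (0 : ℝ) ≤ ((sm z S).card : ℝ) := by positivity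
  rw [abs_le] at hb
  have hlow : L / 2 ≤ ((la z S).card : ℝ) := by nlinarith [hb.1]
  refine ⟨?_, ?_, ?_⟩
  · exact_mod_cast hn.trans hlow
  · calc ((sm z S).card : ℝ) ^ 2 ≤ y ^ 2 := pow_le_pow_left₀ hs0 hc 2
      _ ≤ θ * (L / 2) := hy2
      _ ≤ θ * ((la z S).card : ℝ) := mul_le_mul_of_nonneg_left hlow hθ.le
  · intro i
    have hcl : ((((la z S).filter fun p => cl i p).card : ℝ)) ≤ ((S.filter fun p => cl i p).card : ℝ) := by
      have : ((la z S).filter fun p => cl i p).card ≤ (S.filter fun p => cl i p).card :=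
        Finset.card_le_card (Finset.filter_subset_filter _ (Finset.filter_subset _ _))
      exact_mod_cast this
    have hcl2 : ((S.filter fun p => cl i p).card : ℝ) ≤
        (((la z S).filter fun p => cl i p).card : ℝ) + ((sm z S).card : ℝ) := by
      have : (S.filter fun p => cl i p).card ≤
          ((la z S).filter fun p => cl i p).card + (sm z S).card := by
        refine le_trans (Finset.card_le_card ?_) (Finset.card_union_le _ _)
        intro p hp
        rw [mem_filter] at hp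
        rw [mem_union]
        by_cases hz : p ≤ z
        · right
          unfold Pool.Agent.Y703.CX.sm
          rw [mem_filter]
          exact ⟨hp.1, hz⟩
        · left
          unfold Pool.Agent.Y703.CX.la
          rw [mem_filter, mem_filter]
          exact ⟨⟨hp.1, hz⟩, hp.2⟩
      exact_mod_cast this
    have h3 := abs_le.1 (ha i)
    have h4 : w * ((la z S).card : ℝ) ≤ w * (L + θ₁ * L) := by
      apply mul_le_mul_of_nonneg_left _ hw
      linarith [hb.2]
    have h5 : w * (L - 2 * (θ₁ * L)) ≤ w * ((la z S).card : ℝ) := by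
      apply mul_le_mul_of_nonneg_left _ hw
      linarith [hb.1]
    have h6 : (θ₁ * (4 * (1 + w))) * (L / 2) ≤ θ * ((la z S).card : ℝ) :=
      mul_le_mul h2 hlow (by positivity) hθ.le
    have h7 : 0 ≤ w * (θ₁ * L) := by positivity
    rw [abs_le]
    constructor
    · nlinarith [h3.1, h3.2]
    · nlinarith [h3.1, h3.2]

theorem t_EQD : S_EQD := by
  intro hTUR Φ hΦ I _ cl w hw hcl θ n₀ hθ
  obtain ⟨cc, X₀, hcc, hlow⟩ := hΦ.low
  obtain ⟨C, hC⟩ := mer_all0
  -- the constants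
  set θ₁ : ℝ := min (1 / 4) (θ / (4 * (1 + w))) with hθ₁d
  have hθ₁ : 0 < θ₁ := lt_min (by norm_num) (by positivity)
  have hθ₁a : θ₁ ≤ 1 / 4 := min_le_left _ _
  have hθ₁b : θ₁ * (4 * (1 + w)) ≤ θ := by
    have := min_le_right (1 / 4) (θ / (4 * (1 + w)))
    rw [le_div_iff₀ (by positivity)] at this
    exact this
  set m : ℝ := (Fintype.card I : ℝ) + 2 with hm
  have hm0 : 0 < m := by positivity
  set θ₂ : ℝ := θ * cc / m with hθ₂d
  have hθ₂ : 0 < θ₂ := by positivity
  set θ₃ : ℝ := min θ₁ θ₂ with hθ₃d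
  have hθ₃ : 0 < θ₃ := lt_min hθ₁ hθ₂
  have hcl' : ∀ i, ∀ᶠ X : ℕ in atTop,
    (((Icc 1 X).filter fun n => θ₃ * Real.log (Real.log X) <
      |((n.primeFactors.filter fun p => cl i p).card : ℝ) - w * Real.log (Real.log X)|).card : ℝ)
        ≤ θ₃ * X := fun i => hTUR (cl i) w hw (hcl i) θ₃ hθ₃
  obtain ⟨c, hc⟩ : ∃ c : ℕ → Prop, ∀ p, c p := ⟨fun _ => True, fun _ => trivial⟩
  have hall := hTUR c 1 zero_le_one ⟨C, by
    intro y hy
    have e1 : (range (y + 1)).filter (fun p => p.Prime ∧ c p) = (range (y + 1)).filter (fun p => p.Prime) :=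
      Finset.filter_congr (fun p _ => ⟨fun h => h.1, fun h => ⟨h, hc p⟩⟩)
    rw [e1, one_mul]
    exact hC y hy⟩ θ₃ hθ₃
  have hcl'' : ∀ᶠ X : ℕ in atTop, ∀ i,
    (((Icc 1 X).filter fun n => θ₃ * Real.log (Real.log X) <
      |((n.primeFactors.filter fun p => cl i p).card : ℝ) - w * Real.log (Real.log X)|).card : ℝ)
        ≤ θ₃ * X := by
    rw [Filter.eventually_all]
    exact hcl'
  have hLt : Tendsto (fun X : ℕ => Real.log (Real.log X)) atTop atTop :=
    Real.tendsto_log_atTop.comp (Real.tendsto_log_atTop.comp tendsto_natCast_atTop_atTop)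
  -- conditions on L
  have hE1 : ∀ᶠ L : ℝ in atTop, 0 < L ∧ (n₀ : ℝ) ≤ L / 2 ∧ Real.sqrt (θ * (L / 2)) ≤ θ₁ * L ∧
      3 * Real.log L + C ≤ θ₂ * Real.sqrt (θ * (L / 2)) ∧ 2 ≤ L ^ 3 := by
    have c1 : ∀ᶠ L : ℝ in atTop, 1 < L := eventually_gt_atTop 1
    have c2 : ∀ᶠ L : ℝ in atTop, 2 * (n₀ : ℝ) ≤ L := eventually_ge_atTop _
    have c3 : ∀ᶠ L : ℝ in atTop, θ / (2 * θ₁ ^ 2) ≤ L := eventually_ge_atTop _
    have c4 : ∀ᶠ L : ℝ in atTop, 3 * Real.log L + C ≤ θ₂ * Real.sqrt (θ * (L / 2)) := by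
      have l1 : (fun L : ℝ => Real.log L) =o[atTop] fun L : ℝ => L ^ (1 / 2 : ℝ) :=
        isLittleO_log_rpow_atTop (by norm_num)
      have l2 := l1.def (show (0 : ℝ) < θ₂ * Real.sqrt (θ / 2) / 6 by positivity)
      have l3 : Tendsto (fun L : ℝ => (θ₂ * Real.sqrt (θ / 2) / 2) * L ^ (1 / 2 : ℝ)) atTop atTop :=
        (tendsto_rpow_atTop (by norm_num)).const_mul_atTop (by positivity)
      filter_upwards [l2, l3.eventually_ge_atTop C, c1] with L h1 h2 h3
      have h4 : Real.sqrt (θ * (L / 2)) = Real.sqrt (θ / 2) * L ^ (1 / 2 : ℝ) := by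
        rw [← Real.sqrt_eq_rpow, ← Real.sqrt_mul (by positivity)]
        congr 1
        ring
      rw [Real.norm_eq_abs, Real.norm_eq_abs, abs_of_nonneg (Real.log_nonneg h3.le),
        abs_of_nonneg (by positivity)] at h1
      rw [h4]
      nlinarith
    have c5 : ∀ᶠ L : ℝ in atTop, 2 ≤ L := eventually_ge_atTop _
    filter_upwards [c1, c2, c3, c4, c5] with L h1 h2 h3 h4 h5
    refine ⟨by linarith, by linarith, ?_, h4, by nlinarith [sq_nonneg L]⟩
    rw [Real.sqrt_le_left (by positivity)]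
    rw [div_le_iff₀ (by positivity)] at h3
    nlinarith
  filter_upwards [hcl'', hall, hLt.eventually hE1, eventually_ge_atTop X₀, eventually_ge_atTop 3]
    with X g1 g2 g3 g4 g5
  obtain ⟨hL, hn, hy1, hy2, hL3⟩ := g3
  set L : ℝ := Real.log (Real.log X) with hLd
  set y : ℝ := Real.sqrt (θ * (L / 2)) with hyd
  have hypos : 0 < y := Real.sqrt_pos.2 (by positivity)
  have hXpos : (0 : ℝ) < X := by
    have : (0 : ℝ) < (X : ℕ) := by exact_mod_cast (by omega : 0 < X)
    exact this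
  -- the number of sets
  have hN : cc * X ≤ ((SS Φ X).card : ℝ) := by
    have := hlow X g4
    rw [show (-1 + 1 : ℝ) = 0 by norm_num, Real.rpow_zero, mul_one] at this
    exact this
  -- the small primes
  have hz3 : 3 ≤ zz X := by
    unfold Pool.Agent.Y703.CX.zz
    apply Nat.le_floor
    have e1 : (2 : ℝ) ≤ (eL X) ^ 3 := hL3
    have e2 : Real.exp 2 ≤ Real.exp ((eL X) ^ 3) := Real.exp_le_exp.2 e1
    have e3 := Real.add_one_le_exp (2 : ℝ)
    push_cast
    linarith
  have hlz : Real.log (Real.log (zz X)) ≤ 3 * Real.log L := by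
    have e1 : ((zz X : ℕ) : ℝ) ≤ Real.exp (L ^ 3) := Nat.floor_le (Real.exp_pos _).le
    have e2 : (3 : ℝ) ≤ ((zz X : ℕ) : ℝ) := by exact_mod_cast hz3
    have e3 : Real.log (zz X) ≤ L ^ 3 := by
      have := Real.log_le_log (by linarith) e1
      rwa [Real.log_exp] at this
    have e4 : 0 < Real.log (zz X) := Real.log_pos (by linarith)
    have e5 := Real.log_le_log e4 e3
    rwa [Real.log_pow] at e5
  have hsum : ∑ p ∈ (range (zz X + 1)).filter (fun p => p.Prime), (1 : ℝ) / p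
      ≤ θ₂ * y := by
    have e1 := hC (zz X) hz3
    have e2 := (abs_le.1 e1).2
    linarith
  have hbc : (((SS Φ X).filter fun S => y < ((sm (zz X) S).card : ℝ)).card : ℝ) ≤ θ₂ * X := by
    have e1 := mark Φ X (zz X) y hypos
    have e2 : (((SS Φ X).filter fun S => y < ((sm (zz X) S).card : ℝ)).card : ℝ) * y
        ≤ (θ₂ * X) * y := by
      refine e1.trans ?_
      calc (X : ℝ) * _ ≤ X * (θ₂ * y) := mul_le_mul_of_nonneg_left hsum hXpos.le
        _ = _ := by ring
    exact le_of_mul_le_mul_right e2 hypos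
  -- the classes
  have hθ₃₁ : θ₃ * L ≤ θ₁ * L := mul_le_mul_of_nonneg_right (min_le_left _ _) hL.le
  have hθ₃₂ : θ₃ * X ≤ θ₂ * X := mul_le_mul_of_nonneg_right (min_le_right _ _) hXpos.le
  have hba : ∀ i, (((SS Φ X).filter fun S =>
      θ₁ * L < |((S.filter fun p => cl i p).card : ℝ) - w * L|).card : ℝ) ≤ θ₂ * X := by
    intro i
    refine le_trans ?_ ((g1 i).trans hθ₃₂)
    exact Nat.cast_le.2 (transfer Φ X
      (fun S => θ₁ * L < |((S.filter fun p => cl i p).card : ℝ) - w * L|)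
      (fun n => θ₃ * L < |((n.primeFactors.filter fun p => cl i p).card : ℝ) - w * L|)
      (fun S hS h => by
        show θ₃ * L < |((((∏ p ∈ S, p).primeFactors).filter fun p => cl i p).card : ℝ) - w * L|
        rw [SS_pf Φ X S hS]
        exact lt_of_le_of_lt hθ₃₁ h))
  have hbb : (((SS Φ X).filter fun S => θ₁ * L < |(S.card : ℝ) - L|).card : ℝ) ≤ θ₂ * X := by
    refine le_trans ?_ (g2.trans hθ₃₂)
    exact Nat.cast_le.2 (transfer Φ X (fun S => θ₁ * L < |(S.card : ℝ) - L|)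
      (fun n => θ₃ * L < |((n.primeFactors.filter fun p => c p).card : ℝ) - 1 * L|)
      (fun S hS h => by
        show θ₃ * L < |((((∏ p ∈ S, p).primeFactors).filter fun p => c p).card : ℝ) - 1 * L|
        rw [SS_pf Φ X S hS, Finset.filter_true_of_mem (fun p _ => hc p), one_mul]
        exact lt_of_le_of_lt hθ₃₁ h))
  -- the union bound
  have hsub : (SS Φ X).filter (fun S => ¬ Eqd cl w θ n₀ (sm (zz X) S) (la (zz X) S)) ⊆
      ((univ : Finset I).biUnion fun i => (SS Φ X).filter fun S =>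
        θ₁ * L < |((S.filter fun p => cl i p).card : ℝ) - w * L|) ∪
      (((SS Φ X).filter fun S => θ₁ * L < |(S.card : ℝ) - L|) ∪
        ((SS Φ X).filter fun S => y < ((sm (zz X) S).card : ℝ))) := by
    intro S hS
    rw [mem_filter] at hS
    by_contra hcon
    rw [mem_union, mem_union, mem_biUnion] at hcon
    push Not at hcon
    obtain ⟨k1, k2, k3⟩ := hcon
    apply hS.2
    have hyy : y ^ 2 ≤ θ * (L / 2) := by
      rw [hyd, Real.sq_sqrt (by positivity)]
    refine good cl w θ θ₁ L y n₀ (zz X) hw hθ hθ₁ hθ₁a hθ₁b hL hn hypos.le hy1 hyy S ?_ ?_ ?_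
    · intro i
      have := k1 i (mem_univ i)
      rw [mem_filter, not_and] at this
      exact not_lt.1 (this hS.1)
    · rw [mem_filter, not_and] at k2
      exact not_lt.1 (k2 hS.1)
    · rw [mem_filter, not_and] at k3
      exact not_lt.1 (k3 hS.1)
  have hfin : (((SS Φ X).filter fun S => ¬ Eqd cl w θ n₀ (sm (zz X) S) (la (zz X) S)).card : ℝ) ≤
      (Fintype.card I : ℝ) * (θ₂ * X) + (θ₂ * X + θ₂ * X) := by
    have e1 := Finset.card_le_card hsub
    have e2 : ((((univ : Finset I).biUnion fun i => (SS Φ X).filter fun S =>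
        θ₁ * L < |((S.filter fun p => cl i p).card : ℝ) - w * L|).card : ℕ) : ℝ) ≤
        (Fintype.card I : ℝ) * (θ₂ * X) := by
      have e3 := Finset.card_biUnion_le (s := (univ : Finset I)) (t := fun i => (SS Φ X).filter fun S =>
        θ₁ * L < |((S.filter fun p => cl i p).card : ℝ) - w * L|)
      calc _ ≤ ((∑ i : I, ((SS Φ X).filter fun S =>
            θ₁ * L < |((S.filter fun p => cl i p).card : ℝ) - w * L|).card : ℕ) : ℝ) := by
              exact_mod_cast e3
        _ = ∑ i : I, (((SS Φ X).filter fun S =>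
            θ₁ * L < |((S.filter fun p => cl i p).card : ℝ) - w * L|).card : ℝ) := by
              push_cast; rfl
        _ ≤ ∑ i : I, θ₂ * X := Finset.sum_le_sum (fun i _ => hba i)
        _ = _ := by rw [Finset.sum_const, Finset.card_univ, nsmul_eq_mul]
    calc _ ≤ _ := Nat.cast_le.2 e1
      _ ≤ (((((univ : Finset I).biUnion fun i => (SS Φ X).filter fun S =>
        θ₁ * L < |((S.filter fun p => cl i p).card : ℝ) - w * L|).card +
        (((SS Φ X).filter fun S => θ₁ * L < |(S.card : ℝ) - L|).card +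
        ((SS Φ X).filter fun S => y < ((sm (zz X) S).card : ℝ)).card) : ℕ)) : ℝ) := by
          apply Nat.cast_le.2
          refine (Finset.card_union_le _ _).trans ?_
          exact Nat.add_le_add_left (Finset.card_union_le _ _) _
      _ ≤ _ := by
          push_cast
          linarith
  calc _ ≤ _ := hfin
    _ = m * (θ₂ * X) := by rw [hm]; ring
    _ = θ * (cc * X) := by rw [hθ₂d]; field_simp
    _ ≤ θ * ((SS Φ X).card : ℝ) := mul_le_mul_of_nonneg_left hN hθ.le

end Pool.Agent.Q65.MX
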