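import Pool.Agent.Q44.MX.StmB

/-!
# MX-UNIF: comparison of the block system with the uniform model
-/

set_option autoImplicit false
set_option linter.unusedSectionVars false

namespace Pool.Agent.Q65.MX

open Finset Module
open Pool.Agent.Y703.CQ (prs ext)
open Q44.JQ (Dj Bk Sel rowL clL)
open Q44.LD (sb ra)
open Q44.MX
open scoped Classical

/-! ### Counting under an affine surjection -/

theorem count_affine {G H : Type} [AddCommGroup G] [AddCommGroup H] [Fintype G] [Fintype H]
    (f : G →+ H) (hf : Function.Surjective f) (c : H) (Q : H → Prop) [DecidablePred Q] :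
    (univ.filter fun g => Q (f g + c)).card * Fintype.card H =
      Fintype.card G * (univ.filter Q).card := by
  set m := (univ.filter fun g => f g = 0).card with hm
  have h1 : ∀ h : H, (univ.filter fun g => f g = h).card = m := by
    intro h
    obtain ⟨g0, rfl⟩ := hf h
    rw [hm]
    refine Finset.card_bij (fun g _ => g - g0) ?_ ?_ ?_
    · intro g hg
      simp only [mem_filter, mem_univ, true_and] at hg ⊢
      rw [map_sub, hg, sub_self]
    · intro g _ g' _ h
      exact sub_left_injective h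
    · intro g hg
      simp only [mem_filter, mem_univ, true_and] at hg
      refine ⟨g + g0, ?_, by simp⟩
      simp only [mem_filter, mem_univ, true_and]
      rw [map_add, hg, zero_add]
  have h2 : (univ.filter fun g => Q (f g + c)).card = (univ.filter Q).card * m := by
    rw [Finset.card_eq_sum_card_fiberwise (f := fun g => f g + c) (t := univ.filter Q)]
    · rw [Finset.sum_congr rfl (g := fun _ => m), Finset.sum_const, smul_eq_mul]
      intro h hh
      simp only [mem_filter, mem_univ, true_and] at hh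
      rw [← h1 (h - c)]
      congr 1
      ext g
      simp only [mem_filter, mem_univ, true_and]
      constructor
      · rintro ⟨_, rfl⟩
        rw [add_sub_cancel_right]
      · intro h
        rw [h, sub_add_cancel]
        exact ⟨hh, rfl⟩
    · intro g hg
      simpa using hg
  have h3 : Fintype.card G = Fintype.card H * m := by
    have := Finset.card_eq_sum_card_fiberwise (f := fun g => f g) (s := (univ : Finset G))
      (t := (univ : Finset H)) (fun _ _ => mem_univ _)
    rw [Finset.card_univ] at this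
    rw [this, Finset.sum_congr rfl (fun h _ => h1 h), Finset.sum_const, smul_eq_mul, Finset.card_univ]
  rw [h2, h3]
  ring

/-! ### The extension of the symbols -/

section ext
variable {ι : Type} [Fintype ι] [LinearOrder ι]

theorem mem_prs (i j : ι) : (i, j) ∈ prs (univ : Finset ι) ↔ i < j := by
  unfold Pool.Agent.Y703.CQ.prs
  simp only [mem_filter, mem_univ, true_and, forall_const]
  exact ⟨fun h => h.2, fun h => ⟨h.ne', h⟩⟩

theorem ext_lt (α : prs (univ : Finset ι) → ZMod 2) (i j : ι) (h : i < j) :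
    ext α i j = α ⟨(i, j), (mem_prs i j).2 h⟩ := by
  unfold Pool.Agent.Y703.CQ.ext
  rw [dif_pos ((mem_prs i j).2 h)]

theorem ext_gt (α : prs (univ : Finset ι) → ZMod 2) (i j : ι) (h : j < i) :
    ext α i j = α ⟨(j, i), (mem_prs j i).2 h⟩ := by
  unfold Pool.Agent.Y703.CQ.ext
  rw [dif_neg (fun h' => absurd ((mem_prs i j).1 h') (not_lt.2 h.le)),
    dif_pos ⟨(mem_prs j i).2 h, mem_univ i⟩]

theorem ext_self (α : prs (univ : Finset ι) → ZMod 2) (i : ι) : ext α i i = 0 := by
  unfold Pool.Agent.Y703.CQ.ext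
  rw [dif_neg (fun h' => absurd ((mem_prs i i).1 h') (lt_irrefl i)),
    dif_neg (fun h' => absurd ((mem_prs i i).1 h'.1) (lt_irrefl i))]

theorem ext_comm (α : prs (univ : Finset ι) → ZMod 2) (i j : ι) : ext α i j = ext α j i := by
  rcases lt_trichotomy i j with h | h | h
  · rw [ext_lt α i j h, ext_gt α j i h]
  · rw [h]
  · rw [ext_gt α i j h, ext_lt α j i h]

theorem ext_add (α β : prs (univ : Finset ι) → ZMod 2) (i j : ι) :
    ext (α + β) i j = ext α i j + ext β i j := by
  rcases lt_trichotomy i j with h | h | h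
  · rw [ext_lt _ i j h, ext_lt _ i j h, ext_lt _ i j h]; rfl
  · rw [h, ext_self, ext_self, ext_self, add_zero]
  · rw [ext_gt _ i j h, ext_gt _ i j h, ext_gt _ i j h]; rfl

/-- every symmetric matrix is an extension off the diagonal -/
theorem ext_of (σ : ι → ι → ZMod 2) (hσ : ∀ i j, σ i j = σ j i) (i j : ι) (h : i ≠ j) :
    ext (fun e : prs (univ : Finset ι) => σ e.1.1 e.1.2) i j = σ i j := by
  rcases lt_or_gt_of_ne h with h | h
  · rw [ext_lt _ i j h]
  · rw [ext_gt _ i j h, hσ]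

theorem ext_ra (B : ι → Prop) (α : prs (univ : Finset ι) → ZMod 2) (i j : {i // B i}) :
    ext (ra B α) i j = ext α (i : ι) (j : ι) := by
  rcases lt_trichotomy i j with h | h | h
  · rw [ext_lt _ i j h]; rfl
  · rw [h, ext_self, ext_self]
  · rw [ext_gt _ i j h, ext_comm α]; rfl

end ext

/-! ### Splitting a sum -/

theorem sum_split {ι M : Type} [AddCommMonoid M] (B : ι → Prop) (i₀ : ι) (h₀ : B i₀)
    [Fintype {i // B i}] [Fintype {i : ι // B i ∧ i ≠ i₀}] (f : {i // B i} → M) :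
    ∑ i, f i = f ⟨i₀, h₀⟩ + ∑ q : {i : ι // B i ∧ i ≠ i₀}, f ⟨q.1, q.2.1⟩ := by
  rw [← Finset.add_sum_erase univ f (mem_univ ⟨i₀, h₀⟩)]
  congr 1
  symm
  refine Finset.sum_bij (fun q _ => ⟨q.1, q.2.1⟩) ?_ ?_ ?_ ?_
  · intro q _
    rw [mem_erase]
    refine ⟨fun h => q.2.2 (congrArg Subtype.val h), mem_univ _⟩
  · intro q _ q' _ h
    exact Subtype.ext (congrArg (fun z : {i // B i} => z.1) h)
  · intro i hi
    rw [mem_erase] at hi
    exact ⟨⟨i.1, i.2, fun h => hi.1 (Subtype.ext h)⟩, mem_univ _, rfl⟩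
  · intro q _
    rfl

section main
variable {s V U ι : Type} [Fintype s] [AddCommGroup V] [Module (ZMod 2) V]
  [Fintype U] [Fintype ι] [LinearOrder ι]

/-- the symbols of the restricted block -/
noncomputable def NN (D : Dj s V) (b : Bk s U ι) (A : U → Prop) (B : ι → Prop)
    (α : prs (univ : Finset ι) → ZMod 2) := (sb b A B).N D.s₀ (ra B α)

theorem NN_rl (D : Dj s V) (b : Bk s U ι) (A : U → Prop) (B : ι → Prop)
    (α : prs (univ : Finset ι) → ZMod 2) (i : {i // B i}) (u : {u // A u}) :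
    NN D b A B α (Sum.inr i) (Sum.inl u) = b.C i u := rfl

theorem NN_rr (D : Dj s V) (b : Bk s U ι) (A : U → Prop) (B : ι → Prop)
    (α : prs (univ : Finset ι) → ZMod 2) (i j : {i // B i}) :
    NN D b A B α (Sum.inr i) (Sum.inr j) =
      ext α (i : ι) (j : ι) + (if j < i then b.hJ i D.s₀ * b.hJ j D.s₀ else 0) := by
  rw [← ext_ra]
  rfl

/-- the diagonal entry -/
noncomputable def dg (D : Dj s V) (b : Bk s U ι) (A : U → Prop) (B : ι → Prop)
    (α : prs (univ : Finset ι) → ZMod 2) (i : {i // B i}) : ZMod 2 :=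
  ∑ q, NN D b A B α (Sum.inr i) q

/-- the linear part of the diagonal entry -/
noncomputable def dgL (B : ι → Prop) (α : prs (univ : Finset ι) → ZMod 2) (i : ι) : ZMod 2 :=
  ∑ q : {i // B i}, ext α i (q : ι)

/-- the constant part of the diagonal entry -/
noncomputable def dgC (D : Dj s V) (b : Bk s U ι) (A : U → Prop) (B : ι → Prop) (i : ι) : ZMod 2 :=
  ∑ u : {u // A u}, b.C i u +
    ∑ q : {i // B i}, (if (q : ι) < i then b.hJ i D.s₀ * b.hJ q D.s₀ else 0)

theorem dg_eq (D : Dj s V) (b : Bk s U ι) (A : U → Prop) (B : ι → Prop)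
    (α : prs (univ : Finset ι) → ZMod 2) (i : {i // B i}) :
    dg D b A B α i = dgL B α i + dgC D b A B i := by
  unfold dg dgL dgC
  rw [Fintype.sum_sum_type]
  simp only [NN_rl, NN_rr, Finset.sum_add_distrib]
  have e : ∀ q : {i // B i}, (if q < i then b.hJ i D.s₀ * b.hJ q D.s₀ else 0)
      = (if (q : ι) < i then b.hJ i D.s₀ * b.hJ q D.s₀ else 0) := fun q => rfl
  simp only [e]
  ring

/-- the matrix attached to `α`, linear part -/
noncomputable def aL (B : ι → Prop) (i₀ : ι) :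
    (prs (univ : Finset ι) → ZMod 2) →+ (Sym2 {i : ι // B i ∧ i ≠ i₀} → ZMod 2) where
  toFun α := fun z => Sym2.lift ⟨fun (p q : {i : ι // B i ∧ i ≠ i₀}) =>
      if p = q then dgL B α p else ext α (p : ι) (q : ι), by
    intro p q
    by_cases h : p = q
    · subst h; rfl
    · show (if p = q then _ else _) = (if q = p then _ else _)
      rw [if_neg h, if_neg (fun h' => h h'.symm), ext_comm]⟩ z
  map_zero' := by
    funext z
    induction z using Sym2.ind with
    | _ p q =>
      simp only [Sym2.lift_mk, Pi.zero_apply]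
      have h0 : ∀ i j : ι, ext (0 : prs (univ : Finset ι) → ZMod 2) i j = 0 := by
        intro i j
        have := ext_add (0 : prs (univ : Finset ι) → ZMod 2) 0 i j
        rw [add_zero] at this
        exact left_eq_add.1 this
      by_cases h : p = q
      · rw [if_pos h]
        unfold dgL
        simp [h0]
      · rw [if_neg h, h0]
  map_add' α β := by
    funext z
    induction z using Sym2.ind with
    | _ p q =>
      simp only [Sym2.lift_mk, Pi.add_apply]
      by_cases h : p = q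
      · rw [if_pos h, if_pos h, if_pos h]
        unfold dgL
        simp only [ext_add, Finset.sum_add_distrib]
      · rw [if_neg h, if_neg h, if_neg h, ext_add]

theorem aL_diag (B : ι → Prop) (i₀ : ι) (α : prs (univ : Finset ι) → ZMod 2)
    (p : {i : ι // B i ∧ i ≠ i₀}) : aL B i₀ α s(p, p) = dgL B α p := by
  show (if p = p then _ else _) = _
  rw [if_pos rfl]

theorem aL_off (B : ι → Prop) (i₀ : ι) (α : prs (univ : Finset ι) → ZMod 2)
    (p q : {i : ι // B i ∧ i ≠ i₀}) (h : p ≠ q) : aL B i₀ α s(p, q) = ext α (p : ι) (q : ι) := by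
  show (if p = q then _ else _) = _
  rw [if_neg h]

/-- the constant part -/
noncomputable def aC (D : Dj s V) (b : Bk s U ι) (A : U → Prop) (B : ι → Prop) (i₀ : ι) :
    Sym2 {i : ι // B i ∧ i ≠ i₀} → ZMod 2 :=
  fun z => Sym2.lift ⟨fun (p q : {i : ι // B i ∧ i ≠ i₀}) => if p = q then dgC D b A B p else 0, by
    intro p q
    by_cases h : p = q
    · subst h; rfl
    · show (if p = q then _ else _) = (if q = p then _ else _)
      rw [if_neg h, if_neg (fun h' => h h'.symm)]⟩ z

theorem aC_diag (D : Dj s V) (b : Bk s U ι) (A : U → Prop) (B : ι → Prop) (i₀ : ι)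
    (p : {i : ι // B i ∧ i ≠ i₀}) : aC D b A B i₀ s(p, p) = dgC D b A B p := by
  show (if p = p then _ else _) = _
  rw [if_pos rfl]

theorem aC_off (D : Dj s V) (b : Bk s U ι) (A : U → Prop) (B : ι → Prop) (i₀ : ι)
    (p q : {i : ι // B i ∧ i ≠ i₀}) (h : p ≠ q) : aC D b A B i₀ s(p, q) = 0 := by
  show (if p = q then _ else _) = _
  rw [if_neg h]

theorem aL_surj (B : ι → Prop) (i₀ : ι) (h₀ : B i₀) : Function.Surjective (aL (ι := ι) B i₀) := by
  intro a'
  -- the diagonal corrections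
  set d : {i : ι // B i ∧ i ≠ i₀} → ZMod 2 := fun p => a' s(p, p) -
    ∑ q : {i : ι // B i ∧ i ≠ i₀}, (if p = q then 0 else a' s(p, q)) with hd
  set σ : ι → ι → ZMod 2 := fun i j =>
    if h : (B i ∧ i ≠ i₀) ∧ (B j ∧ j ≠ i₀) then a' s(⟨i, h.1⟩, ⟨j, h.2⟩)
    else if h : (B i ∧ i ≠ i₀) then (if j = i₀ then d ⟨i, h⟩ else 0)
    else if h : (B j ∧ j ≠ i₀) then (if i = i₀ then d ⟨j, h⟩ else 0) else 0 with hσ
  have hb : ∀ i j (h1 : B i ∧ i ≠ i₀) (h2 : B j ∧ j ≠ i₀), σ i j = a' s(⟨i, h1⟩, ⟨j, h2⟩) :=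
    fun i j h1 h2 => dif_pos ⟨h1, h2⟩
  have hc : ∀ i j (h1 : B i ∧ i ≠ i₀) (h2 : ¬ (B j ∧ j ≠ i₀)),
      σ i j = if j = i₀ then d ⟨i, h1⟩ else 0 := by
    intro i j h1 h2
    have e1 : ¬ ((B i ∧ i ≠ i₀) ∧ (B j ∧ j ≠ i₀)) := fun h => h2 h.2
    simp only [hσ]
    rw [dif_neg e1, dif_pos h1]
  have hc' : ∀ i j (h1 : ¬ (B i ∧ i ≠ i₀)) (h2 : B j ∧ j ≠ i₀),
      σ i j = if i = i₀ then d ⟨j, h2⟩ else 0 := by
    intro i j h1 h2
    have e1 : ¬ ((B i ∧ i ≠ i₀) ∧ (B j ∧ j ≠ i₀)) := fun h => h1 h.1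
    simp only [hσ]
    rw [dif_neg e1, dif_neg h1, dif_pos h2]
  have hn : ∀ i j (h1 : ¬ (B i ∧ i ≠ i₀)) (h2 : ¬ (B j ∧ j ≠ i₀)), σ i j = 0 := by
    intro i j h1 h2
    have e1 : ¬ ((B i ∧ i ≠ i₀) ∧ (B j ∧ j ≠ i₀)) := fun h => h1 h.1
    simp only [hσ]
    rw [dif_neg e1, dif_neg h1, dif_neg h2]
  have hσs : ∀ i j, σ i j = σ j i := by
    intro i j
    by_cases h1 : B i ∧ i ≠ i₀
    · by_cases h2 : B j ∧ j ≠ i₀
      · rw [hb i j h1 h2, hb j i h2 h1, Sym2.eq_swap]
      · rw [hc i j h1 h2, hc' j i h2 h1]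
    · by_cases h2 : B j ∧ j ≠ i₀
      · rw [hc' i j h1 h2, hc j i h2 h1]
      · rw [hn i j h1 h2, hn j i h2 h1]
  have hσ1 : ∀ p q : {i : ι // B i ∧ i ≠ i₀}, σ p q = a' s(p, q) := fun p q => hb p q p.2 q.2
  have hσ2 : ∀ p : {i : ι // B i ∧ i ≠ i₀}, σ p i₀ = d p := by
    intro p
    rw [hc p i₀ p.2 (fun h => h.2 rfl), if_pos rfl]
  refine ⟨fun e => σ e.1.1 e.1.2, ?_⟩
  funext z
  induction z using Sym2.ind with
  | _ p q =>
    by_cases h : p = q
    · subst h
      rw [aL_diag]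
      unfold dgL
      rw [sum_split B i₀ h₀, ext_of σ hσs _ _ p.2.2, hσ2]
      have e : ∀ q : {i : ι // B i ∧ i ≠ i₀},
          ext (fun e : prs (univ : Finset ι) => σ e.1.1 e.1.2) (p : ι) (q : ι)
            = if p = q then 0 else a' s(p, q) := by
        intro q
        by_cases h : p = q
        · subst h
          rw [if_pos rfl, ext_self]
        · rw [if_neg h, ext_of σ hσs _ _ (fun h' => h (Subtype.ext h')), hσ1]
      simp only [e, hd]
      exact sub_add_cancel _ _
    · rw [aL_off B i₀ _ p q h, ext_of σ hσs _ _ (fun h' => h (Subtype.ext h')), hσ1]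

/-- the evaluation at the small part -/
noncomputable def evs (A : U → Prop) (B : ι → Prop) (i₀ : {i // B i}) :
    ((s → V) × ({u // A u} ⊕ {i // B i} → V)) →ₗ[ZMod 2]
      ((s → V) × (({u // A u} → V) × V)) where
  toFun e := (e.1, (fun u => e.2 (Sum.inl u), e.2 (Sum.inr i₀)))
  map_add' e e' := rfl
  map_smul' c e := rfl

/-- the restriction to the large primes different from `i₀` -/
noncomputable def res (A : U → Prop) (B : ι → Prop) (i₀ : ι) :
    ((s → V) × ({u // A u} ⊕ {i // B i} → V)) →ₗ[ZMod 2]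
      ({i : ι // B i ∧ i ≠ i₀} → V) where
  toFun e := fun p => e.2 (Sum.inr ⟨p.1, p.2.1⟩)
  map_add' e e' := rfl
  map_smul' c e := rfl

theorem zsmul2 (c : ZMod 2) (x : V) : c • x + c • x = 0 := by
  rw [← add_smul, CharTwo.add_self_eq_zero, zero_smul]

theorem res_mem (D : Dj s V) (b : Bk s U ι) (A : U → Prop) (B : ι → Prop) (i₀ : ι) (h₀ : B i₀)
    (α : prs (univ : Finset ι) → ZMod 2) (e : (s → V) × ({u // A u} ⊕ {i // B i} → V))
    (he : e ∈ Sel D (NN D b A B α) (sb b A B).h) (he0 : evs A B ⟨i₀, h₀⟩ e = 0) :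
    res A B i₀ e ∈ (mdl D b B i₀).K (aL B i₀ α + aC D b A B i₀) := by
  have hδ : e.1 = 0 := congrArg Prod.fst he0
  have hu : ∀ u, e.2 (Sum.inl u) = 0 := fun u => congrFun (congrArg (fun z => z.2.1) he0) u
  have hi0 : e.2 (Sum.inr ⟨i₀, h₀⟩) = 0 := congrArg (fun z => z.2.2) he0
  have hrow := (Submodule.mem_inf.1 he).2
  rw [LinearMap.mem_ker] at hrow
  unfold Md.K
  rw [LinearMap.mem_ker]
  funext p
  have hp := congrFun hrow (Sum.inr ⟨p.1, p.2.1⟩)
  refine Eq.trans ?_ hp
  -- both sides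
  set x := res A B i₀ e with hx
  have hxq : ∀ q : {i : ι // B i ∧ i ≠ i₀}, e.2 (Sum.inr ⟨q.1, q.2.1⟩) = x q := fun q => rfl
  have hR : rowL D (NN D b A B α) (sb b A B).h e (Sum.inr ⟨p.1, p.2.1⟩)
      = ∑ q : {i : ι // B i ∧ i ≠ i₀}, (ext α (p : ι) (q : ι)
          + (if q < p then b.hJ p D.s₀ * b.hJ q D.s₀ else 0)) • x q
        + dg D b A B α ⟨p.1, p.2.1⟩ • x p + D.T (b.hJ p) (x p) := by
    show ∑ q, NN D b A B α (Sum.inr ⟨p.1, p.2.1⟩) q • (e.2 q + e.2 (Sum.inr ⟨p.1, p.2.1⟩))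
      + D.T ((sb b A B).h (Sum.inr ⟨p.1, p.2.1⟩)) (e.2 (Sum.inr ⟨p.1, p.2.1⟩))
      + ∑ t, (sb b A B).h (Sum.inr ⟨p.1, p.2.1⟩) t • e.1 t = _
    have e1 : ∑ t, (sb b A B).h (Sum.inr ⟨p.1, p.2.1⟩) t • e.1 t = 0 := by
      apply Finset.sum_eq_zero
      intro t _
      rw [hδ]
      simp
    rw [e1, add_zero]
    congr 1
    simp only [smul_add, Finset.sum_add_distrib]
    rw [← Finset.sum_smul]
    congr 1
    rw [Fintype.sum_sum_type]
    simp only [hu, smul_zero, Finset.sum_const_zero, zero_add]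
    rw [sum_split B i₀ h₀, hi0, smul_zero, zero_add]
    refine Finset.sum_congr rfl (fun q _ => ?_)
    rw [NN_rr, hxq]
    rfl
  rw [hR]
  show ∑ q, (aL B i₀ α + aC D b A B i₀) s(p, q) • x q
    + ∑ q ∈ univ.filter (fun q => q < p), (b.hJ p D.s₀ * b.hJ q D.s₀) • x q
    + D.T (b.hJ p) (x p) = _
  congr 1
  rw [Finset.sum_filter]
  have e2 : ∀ q : {i : ι // B i ∧ i ≠ i₀}, (aL B i₀ α + aC D b A B i₀) s(p, q) • x q
      = ext α (p : ι) (q : ι) • x q + (if q = p then dg D b A B α ⟨p.1, p.2.1⟩ • x p else 0) := by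
    intro q
    by_cases h : q = p
    · subst h
      rw [if_pos rfl, Pi.add_apply, aL_diag, aC_diag, ext_self, zero_smul, zero_add, dg_eq]
    · rw [if_neg h, add_zero, Pi.add_apply, aL_off B i₀ α p q (fun h' => h h'.symm),
        aC_off D b A B i₀ p q (fun h' => h h'.symm), add_zero]
  simp only [e2, add_smul, ite_smul, zero_smul]
  rw [Finset.sum_add_distrib, Finset.sum_add_distrib, Finset.sum_ite_eq' univ p]
  simp only [mem_univ, if_true]
  abel

theorem rk_le [Finite V] (D : Dj s V) (b : Bk s U ι) (A : U → Prop) (B : ι → Prop) (i₀ : ι)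
    (h₀ : B i₀) (α : prs (univ : Finset ι) → ZMod 2) :
    rk D b A B α ≤ finrank (ZMod 2) ((mdl D b B i₀).K (aL B i₀ α + aC D b A B i₀))
      + finrank (ZMod 2) V * (Fintype.card s + Fintype.card U + 1) := by
  have hfin : Module.Finite (ZMod 2) V := Module.Finite.of_finite
  show finrank (ZMod 2) (Sel D (NN D b A B α) (sb b A B).h) ≤ _
  set S := Sel D (NN D b A B α) (sb b A B).h with hS
  set f : S →ₗ[ZMod 2] ((s → V) × (({u // A u} → V) × V)) :=
    (evs A B ⟨i₀, h₀⟩).comp S.subtype with hf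
  have hrn := LinearMap.finrank_range_add_finrank_ker f
  have h1 : finrank (ZMod 2) (LinearMap.range f) ≤
      finrank (ZMod 2) V * (Fintype.card s + Fintype.card U + 1) := by
    refine (Submodule.finrank_le _).trans ?_
    rw [Module.finrank_prod, Module.finrank_prod, Module.finrank_pi_fintype,
      Module.finrank_pi_fintype]
    simp only [Finset.sum_const, Finset.card_univ, smul_eq_mul]
    have : Fintype.card {u // A u} ≤ Fintype.card U := Fintype.card_subtype_le _
    nlinarith [Nat.zero_le (finrank (ZMod 2) V)]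
  have h2 : finrank (ZMod 2) (LinearMap.ker f) ≤
      finrank (ZMod 2) ((mdl D b B i₀).K (aL B i₀ α + aC D b A B i₀)) := by
    set g : LinearMap.ker f →ₗ[ZMod 2] ((mdl D b B i₀).K (aL B i₀ α + aC D b A B i₀)) :=
      LinearMap.codRestrict _ (((res A B i₀).comp S.subtype).comp (LinearMap.ker f).subtype) (by
        intro e
        exact res_mem D b A B i₀ h₀ α e.1.1 e.1.2 (LinearMap.mem_ker.1 e.2)) with hg
    refine LinearMap.finrank_le_finrank_of_injective (f := g) ?_
    intro e e' hee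
    have h3 : res A B i₀ (e.1.1) = res A B i₀ (e'.1.1) := congrArg Subtype.val hee
    have h4 : evs A B ⟨i₀, h₀⟩ e.1.1 = 0 := LinearMap.mem_ker.1 e.2
    have h4' : evs A B ⟨i₀, h₀⟩ e'.1.1 = 0 := LinearMap.mem_ker.1 e'.2
    have h5 : evs A B ⟨i₀, h₀⟩ e.1.1 = evs A B ⟨i₀, h₀⟩ e'.1.1 := by rw [h4, h4']
    apply Subtype.ext
    apply Subtype.ext
    apply Prod.ext
    · have h6 := congrArg Prod.fst h5
      exact h6
    · funext p
      rcases p with u | i
      · exact congrFun (congrArg (fun z => z.2.1) h5) u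
      · by_cases hi : i.1 = i₀
        · have : i = ⟨i₀, h₀⟩ := Subtype.ext hi
          rw [this]
          exact congrArg (fun z => z.2.2) h5
        · exact congrFun h3 ⟨i.1, i.2, hi⟩
  omega

end main

theorem t_UNIF : S_UNIF := by
  intro s V U ι _ _ _ _ _ _ _ D b A B i₀ h₀ k
  have key := count_affine (aL B i₀) (aL_surj B i₀ h₀) (aC D b A B i₀)
    (fun a => k ≤ finrank (ZMod 2) ((mdl D b B i₀).K a))
  have hc1 : Fintype.card (prs (univ : Finset ι) → ZMod 2) = 2 ^ (prs (univ : Finset ι)).card := by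
    rw [Fintype.card_fun, ZMod.card, Fintype.card_coe]
  have hc2 : Fintype.card (Sym2 {i : ι // B i ∧ i ≠ i₀} → ZMod 2)
      = 2 ^ Fintype.card (Sym2 {i : ι // B i ∧ i ≠ i₀}) := by
    rw [Fintype.card_fun, ZMod.card]
  rw [hc1, hc2] at key
  rw [← key]
  apply Nat.mul_le_mul_right
  apply Finset.card_le_card
  intro α hα
  simp only [mem_filter, mem_univ, true_and] at hα ⊢
  have := rk_le D b A B i₀ h₀ α
  omega

end Pool.Agent.Q65.MX
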