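import Pool.Agent.Q44.MX.StmE
import Pool.Agent.Q65.MX.UNIF

/-!
# MX-LBA: the lower bound for blocks
-/

set_option autoImplicit false
set_option linter.unusedSectionVars false

namespace Pool.Agent.Q65.MX

open Finset Module
open Pool.Agent.Y703.CQ (prs ext)
open Q44.JQ (Dj Bk Sel rowL clL)
open Q44.LD (sb ra)
open Q44.MX
open scoped Classical

/-! ### Independence of the diagonal -/

theorem lap_congr {ι : Type} (g g' : Sym2 ι → ZMod 2) (h : ∀ p q, p ≠ q → g s(p, q) = g' s(p, q))
    (B : Finset ι) : lap g B = lap g' B := by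
  apply LinearMap.ext
  intro x
  funext p
  show ∑ q : B, g s((p : ι), (q : ι)) * (x q + x p) = ∑ q : B, g' s((p : ι), (q : ι)) * (x q + x p)
  refine Finset.sum_congr rfl (fun q _ => ?_)
  by_cases hpq : p = q
  · subst hpq
    rw [CharTwo.add_self_eq_zero, mul_zero, mul_zero]
  · rw [h _ _ (fun h' => hpq (Subtype.ext h'))]

theorem cr_congr {ι : Type} (g g' : Sym2 ι → ZMod 2) (h : ∀ p q, p ≠ q → g s(p, q) = g' s(p, q))
    (B : Finset ι) : cr g B = cr g' B := by
  unfold cr
  rw [lap_congr g g' h B]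

section main
variable {s V U ι : Type} [Fintype s] [AddCommGroup V] [Module (ZMod 2) V]
  [Fintype U] [Fintype ι] [LinearOrder ι]

/-- the graph on the primes with the property `Q`, with free diagonal -/
noncomputable def gD (Q : ι → Prop) :
    ((prs (univ : Finset ι) → ZMod 2) × ({i // Q i} → ZMod 2)) →+ (Sym2 {i // Q i} → ZMod 2) where
  toFun α := fun z => Sym2.lift ⟨fun (p q : {i // Q i}) =>
      if p = q then α.2 p else ext α.1 (p : ι) (q : ι), by
    intro p q
    by_cases h : p = q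
    · subst h; rfl
    · show (if p = q then _ else _) = (if q = p then _ else _)
      rw [if_neg h, if_neg (fun h' => h h'.symm), ext_comm]⟩ z
  map_zero' := by
    funext z
    induction z using Sym2.ind with
    | _ p q =>
      simp only [Sym2.lift_mk, Pi.zero_apply]
      have h0 : ∀ i j : ι, ext (0 : prs (univ : Finset ι) → ZMod 2) i j = 0 := by
        intro i j
        have := ext_add (0 : prs (univ : Finset ι) → ZMod 2) 0 i j
        rw [add_zero] at this
        exact left_eq_add.1 this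
      by_cases h : p = q
      · rw [if_pos h]; rfl
      · rw [if_neg h]; exact h0 _ _
  map_add' α β := by
    funext z
    induction z using Sym2.ind with
    | _ p q =>
      simp only [Sym2.lift_mk, Pi.add_apply]
      by_cases h : p = q
      · rw [if_pos h, if_pos h, if_pos h]; rfl
      · rw [if_neg h, if_neg h, if_neg h]; exact ext_add _ _ _ _

theorem gD_diag (Q : ι → Prop) (α : prs (univ : Finset ι) → ZMod 2) (d : {i // Q i} → ZMod 2)
    (p : {i // Q i}) : gD Q (α, d) s(p, p) = d p := by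
  show (if p = p then _ else _) = _
  rw [if_pos rfl]

theorem gD_off (Q : ι → Prop) (α : prs (univ : Finset ι) → ZMod 2) (d : {i // Q i} → ZMod 2)
    (p q : {i // Q i}) (h : p ≠ q) : gD Q (α, d) s(p, q) = ext α (p : ι) (q : ι) := by
  show (if p = q then _ else _) = _
  rw [if_neg h]

theorem gD_surj (Q : ι → Prop) : Function.Surjective (gD (ι := ι) Q) := by
  intro a
  set σ : ι → ι → ZMod 2 := fun i j => if h : Q i ∧ Q j then a s(⟨i, h.1⟩, ⟨j, h.2⟩) else 0 with hσ
  have hσs : ∀ i j, σ i j = σ j i := by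
    intro i j
    by_cases h : Q i ∧ Q j
    · have e1 : σ i j = a s(⟨i, h.1⟩, ⟨j, h.2⟩) := dif_pos h
      have e2 : σ j i = a s(⟨j, h.2⟩, ⟨i, h.1⟩) := dif_pos ⟨h.2, h.1⟩
      rw [e1, e2, Sym2.eq_swap]
    · have e1 : σ i j = 0 := dif_neg h
      have e2 : σ j i = 0 := dif_neg (fun h' => h ⟨h'.2, h'.1⟩)
      rw [e1, e2]
  refine ⟨(fun e => σ e.1.1 e.1.2, fun p => a s(p, p)), ?_⟩
  funext z
  induction z using Sym2.ind with
  | _ p q =>
    by_cases h : p = q
    · subst h
      rw [gD_diag]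
    · rw [gD_off Q _ _ p q h, ext_of σ hσs _ _ (fun h' => h (Subtype.ext h'))]
      exact dif_pos ⟨p.2, q.2⟩

/-- the indicator of a set of large primes -/
noncomputable def ind (Q : ι → Prop) (B : Finset {i // Q i}) : U ⊕ ι → ZMod 2 :=
  Sum.elim (fun _ => 0) (fun i => if ∃ h : Q i, (⟨i, h⟩ : {i // Q i}) ∈ B then 1 else 0)

theorem ind_inl (Q : ι → Prop) (B : Finset {i // Q i}) (u : U) :
    ind (U := U) Q B (Sum.inl u) = 0 := rfl

theorem ind_inr (Q : ι → Prop) (B : Finset {i // Q i}) (i : ι) :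
    ind (U := U) Q B (Sum.inr i) ≠ 0 ↔ ∃ h : Q i, (⟨i, h⟩ : {i // Q i}) ∈ B := by
  unfold ind
  simp only [Sum.elim_inr]
  split_ifs with h
  · simp [h]
  · simp [h]

theorem ind_inj (Q : ι → Prop) : Function.Injective (ind (U := U) (ι := ι) Q) := by
  intro B B' h
  ext i
  have h1 := ind_inr (U := U) Q B i
  have h2 := ind_inr (U := U) Q B' i
  rw [h] at h1
  constructor
  · intro hi
    obtain ⟨_, h'⟩ := h2.1 (h1.2 ⟨i.2, hi⟩)
    exact h'
  · intro hi
    obtain ⟨_, h'⟩ := h1.1 (h2.2 ⟨i.2, hi⟩)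
    exact h'

theorem sign_zero (D : Dj s V) (hPl : Pl D.ω) (hS : D.Sym) (φ : s → ZMod 2) (h : D.T φ = 0) :
    φ D.s₀ = 0 := by
  have hnt : Nontrivial V := by
    apply Module.nontrivial_of_finrank_pos (R := ZMod 2)
    rw [hPl.dim]; norm_num
  obtain ⟨x, hx⟩ := exists_ne (0 : V)
  have h1 : ¬ ∀ y, D.ω x y = 0 := fun h' => hx (hPl.nd x h')
  push Not at h1
  obtain ⟨y, hy⟩ := h1
  have h2 := hS.adj φ x y
  rw [h] at h2
  simp only [LinearMap.zero_apply, map_zero, zero_add] at h2
  rcases mul_eq_zero.1 h2.symm with h3 | h3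
  · exact h3
  · exact absurd h3 hy

/-- the solutions with zero class attached to pairs of elements of the kernel of the Laplacian -/
noncomputable def Phi {κ I J : Type} {B : Finset κ} (L : Submodule (ZMod 2) (B → ZMod 2)) (e : J → B)
    (v : Fin 2 → V) : (Fin 2 → L) →ₗ[ZMod 2] ((s → V) × (I ⊕ J → V)) where
  toFun y := (0, Sum.elim (fun _ => (0 : V)) (fun i => ∑ j, ((y j : L) : B → ZMod 2) (e i) • v j))
  map_add' y y' := by
    refine Prod.ext (by simp) ?_
    funext p
    rcases p with u | i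
    · simp
    · simp only [Pi.add_apply, Submodule.coe_add, Sum.elim_inr, Prod.snd_add, add_smul,
        Finset.sum_add_distrib]
  map_smul' c y := by
    refine Prod.ext (by simp) ?_
    funext p
    rcases p with u | i
    · simp
    · simp only [Pi.smul_apply, SetLike.val_smul, Sum.elim_inr, Prod.smul_snd, RingHom.id_apply,
        smul_assoc, Finset.smul_sum]

omit [Fintype s] in
theorem Phi_fst {κ I J : Type} {B : Finset κ} (L : Submodule (ZMod 2) (B → ZMod 2)) (e : J → B)
    (v : Fin 2 → V) (y : Fin 2 → L) :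
    (Phi (s := s) (I := I) L e v y).1 = 0 := rfl

omit [Fintype s] in
theorem Phi_inr {κ I J : Type} {B : Finset κ} (L : Submodule (ZMod 2) (B → ZMod 2)) (e : J → B)
    (v : Fin 2 → V) (y : Fin 2 → L) (i : J) :
    (Phi (s := s) (I := I) L e v y).2 (Sum.inr i) = ∑ j, ((y j : L) : B → ZMod 2) (e i) • v j := rfl

omit [Fintype s] in
theorem Phi_inj {κ I J : Type} {B : Finset κ} (L : Submodule (ZMod 2) (B → ZMod 2)) (e : J → B)
    (he : Function.Bijective e) (v : Fin 2 → V) (hv : LinearIndependent (ZMod 2) v) :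
    Function.Injective (Phi (s := s) (I := I) L e v) := by
  intro y y' h
  funext j
  apply Subtype.ext
  funext q
  obtain ⟨i, rfl⟩ := he.2 q
  have h1 : (Phi (s := s) (I := I) L e v y).2 (Sum.inr i)
      = (Phi (s := s) (I := I) L e v y').2 (Sum.inr i) := by rw [h]
  rw [Phi_inr, Phi_inr] at h1
  have h3 : ∑ j, (((y j : L) : B → ZMod 2) (e i) - ((y' j : L) : B → ZMod 2) (e i)) • v j = 0 := by
    simp only [sub_smul, Finset.sum_sub_distrib, h1, sub_self]
  exact sub_eq_zero.1 (Fintype.linearIndependent_iff.1 hv _ h3 j)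

theorem Phi_row {κ I J : Type} [Fintype I] [Fintype J] {B : Finset κ} (g : Sym2 κ → ZMod 2)
    (L : Submodule (ZMod 2) (B → ZMod 2)) (hL : ∀ x ∈ L, lap g B x = 0)
    (e : J → B) (he : Function.Bijective e) (v : Fin 2 → V) (D : Dj s V)
    (N : I ⊕ J → I ⊕ J → ZMod 2) (hh : I ⊕ J → s → ZMod 2) (hI : IsEmpty I)
    (hN : ∀ i j : J, i ≠ j → N (Sum.inr i) (Sum.inr j) = g s((e i).1, (e j).1))
    (hT : ∀ i : J, D.T (hh (Sum.inr i)) = 0) (y : Fin 2 → L) :
    rowL D N hh (Phi (s := s) (I := I) L e v y) = 0 := by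
  funext p
  rcases p with u | i
  · exact hI.elim u
  · show ∑ q, N (Sum.inr i) q • ((Phi (s := s) (I := I) L e v y).2 q
        + (Phi (s := s) (I := I) L e v y).2 (Sum.inr i))
      + D.T (hh (Sum.inr i)) ((Phi (s := s) (I := I) L e v y).2 (Sum.inr i))
      + ∑ t, hh (Sum.inr i) t • (Phi (s := s) (I := I) L e v y).1 t = 0
    have e1 : ∑ t, hh (Sum.inr i) t • (Phi (s := s) (I := I) L e v y).1 t = 0 := by
      apply Finset.sum_eq_zero
      intro t _
      rw [Phi_fst, Pi.zero_apply, smul_zero]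
    rw [e1, hT, LinearMap.zero_apply, add_zero, add_zero, Fintype.sum_sum_type, Fintype.sum_empty,
      zero_add]
    have e4 : ∀ j : J, N (Sum.inr i) (Sum.inr j) • ((Phi (s := s) (I := I) L e v y).2 (Sum.inr j)
        + (Phi (s := s) (I := I) L e v y).2 (Sum.inr i)) = ∑ k, (g s((e i).1, (e j).1) *
          (((y k : L) : B → ZMod 2) (e j) + ((y k : L) : B → ZMod 2) (e i))) • v k := by
      intro j
      by_cases hij : i = j
      · subst hij
        rw [← two_smul (ZMod 2) ((Phi (s := s) (I := I) L e v y).2 (Sum.inr i))]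
        have : (2 : ZMod 2) = 0 := rfl
        rw [this, zero_smul, smul_zero]
        symm
        apply Finset.sum_eq_zero
        intro k _
        rw [CharTwo.add_self_eq_zero, mul_zero, zero_smul]
      · rw [hN i j hij, Phi_inr, Phi_inr, ← Finset.sum_add_distrib, Finset.smul_sum]
        refine Finset.sum_congr rfl (fun k _ => ?_)
        rw [← add_smul, smul_smul]
    rw [Finset.sum_congr rfl (fun j _ => e4 j), Finset.sum_comm]
    apply Finset.sum_eq_zero
    intro k _
    rw [← Finset.sum_smul]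
    have e5 : ∑ j : J, g s((e i).1, (e j).1) *
          (((y k : L) : B → ZMod 2) (e j) + ((y k : L) : B → ZMod 2) (e i))
        = ∑ q : B, g s((e i).1, q.1) *
          (((y k : L) : B → ZMod 2) q + ((y k : L) : B → ZMod 2) (e i)) :=
      Fintype.sum_bijective e he _ _ (fun j => rfl)
    rw [e5]
    have e6 : lap g B ((y k : L) : B → ZMod 2) = 0 := hL _ (y k).2
    have e8 : ∑ q : B, g s((e i).1, q.1) *
          (((y k : L) : B → ZMod 2) q + ((y k : L) : B → ZMod 2) (e i)) = 0 := congrFun e6 (e i)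
    rw [e8, zero_smul]

omit [Fintype s] [AddCommGroup V] [Module (ZMod 2) V] [Fintype U] [Fintype ι] [LinearOrder ι] in
theorem lap_pos {κ : Type} (g : Sym2 κ → ZMod 2) (B : Finset κ) (hB : B.Nonempty) :
    cr g B + 1 = finrank (ZMod 2) (LinearMap.ker (lap g B)) := by
  have hL1 : 1 ≤ finrank (ZMod 2) (LinearMap.ker (lap g B)) := by
    have hmem : (fun _ => 1 : B → ZMod 2) ∈ LinearMap.ker (lap g B) := by
      rw [LinearMap.mem_ker]
      funext p
      show ∑ q : B, g s((p : κ), (q : κ)) * (1 + 1) = 0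
      apply Finset.sum_eq_zero
      intro q _
      rw [CharTwo.add_self_eq_zero, mul_zero]
    have hne : (⟨_, hmem⟩ : LinearMap.ker (lap g B)) ≠ 0 := by
      intro h
      obtain ⟨q, hq⟩ := hB
      have h1 : (1 : ZMod 2) = 0 := congrFun (congrArg Subtype.val h) ⟨q, hq⟩
      exact one_ne_zero h1
    have : Nontrivial (LinearMap.ker (lap g B)) := ⟨⟨_, 0, hne⟩⟩
    exact Module.finrank_pos
  unfold cr
  omega

/-- the main inequality, abstract form -/
theorem main_abs {κ I J : Type} [Fintype I] [Fintype J] {B : Finset κ} (g : Sym2 κ → ZMod 2)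
    (L : Submodule (ZMod 2) (B → ZMod 2)) (hL : ∀ x ∈ L, lap g B x = 0)
    (e : J → B) (he : Function.Bijective e) [Finite V] (D : Dj s V) (hdim : finrank (ZMod 2) V = 2)
    (N : I ⊕ J → I ⊕ J → ZMod 2) (hh : I ⊕ J → s → ZMod 2) (hI : IsEmpty I)
    (hN : ∀ i j : J, i ≠ j → N (Sum.inr i) (Sum.inr j) = g s((e i).1, (e j).1))
    (hT : ∀ i : J, D.T (hh (Sum.inr i)) = 0) :
    2 * finrank (ZMod 2) L ≤ finrank (ZMod 2) (Sel D N hh) + 2 * Fintype.card s := by
  have hfin : Module.Finite (ZMod 2) V := Module.Finite.of_finite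
  have v := Module.finBasisOfFinrankEq (ZMod 2) V hdim
  have hinj := Phi_inj (s := s) (I := I) L e he v v.linearIndependent
  have hrow := Phi_row g L hL e he v D N hh hI hN hT
  have hfst : ∀ y : Fin 2 → L, (Phi (s := s) (I := I) L e v y).1 = 0 := fun y => rfl
  generalize Phi (s := s) (I := I) L e v = Φ at hinj hrow hfst
  have hrn := LinearMap.finrank_range_add_finrank_ker
    (((LinearMap.snd (ZMod 2) (s → V) (s → V)).comp (clL hh)).comp Φ)
  have h1 : finrank (ZMod 2) (LinearMap.range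
      (((LinearMap.snd (ZMod 2) (s → V) (s → V)).comp (clL hh)).comp Φ)) ≤ 2 * Fintype.card s := by
    refine (Submodule.finrank_le _).trans ?_
    rw [Module.finrank_pi_fintype]
    simp only [Finset.sum_const, Finset.card_univ, smul_eq_mul, hdim]
    omega
  have hcl : ∀ y : Fin 2 → L, (clL hh (Φ y)).1 = (Φ y).1 := fun y => rfl
  have hmem : ∀ y : LinearMap.ker (((LinearMap.snd (ZMod 2) (s → V) (s → V)).comp (clL hh)).comp Φ),
      (Φ.comp (Submodule.subtype _)) y ∈ Sel D N hh := by
    intro y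
    unfold Sel
    rw [Submodule.mem_inf]
    constructor
    · rw [Submodule.mem_comap]
      have h3 : clL hh (Φ y.1) = 0 := by
        apply Prod.ext
        · rw [hcl]; exact hfst y.1
        · exact LinearMap.mem_ker.1 y.2
      rw [LinearMap.comp_apply, Submodule.subtype_apply, h3]
      exact Submodule.zero_mem _
    · rw [LinearMap.mem_ker]
      exact hrow y.1
  have h2 : finrank (ZMod 2) (LinearMap.ker
      (((LinearMap.snd (ZMod 2) (s → V) (s → V)).comp (clL hh)).comp Φ)) ≤
      finrank (ZMod 2) (Sel D N hh) := by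
    refine LinearMap.finrank_le_finrank_of_injective
      (f := LinearMap.codRestrict (Sel D N hh) (Φ.comp (Submodule.subtype _)) hmem) ?_
    intro y y' h
    have h4 : Φ y.1 = Φ y'.1 := congrArg Subtype.val h
    exact Subtype.ext (hinj h4)
  have h3 : finrank (ZMod 2) (Fin 2 → L) = 2 * finrank (ZMod 2) L := by
    rw [Module.finrank_pi_fintype]
    simp
  omega

/-- the symbols of the restricted block -/
theorem N_rr (D : Dj s V) (b : Bk s U ι) (A : U → Prop) (B : ι → Prop)
    (α : prs (univ : Finset ι) → ZMod 2) (i j : {i // B i}) :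
    (sb b A B).N D.s₀ (ra B α) (Sum.inr i) (Sum.inr j) =
      ext α (i : ι) (j : ι) + (if j < i then b.hJ i D.s₀ * b.hJ j D.s₀ else 0) := by
  rw [← ext_ra]
  rfl

/-- the main inequality -/
theorem main_gen [Finite V] (D : Dj s V) (hPl : Pl D.ω) (hS : D.Sym) (b : Bk s U ι)
    (α : prs (univ : Finset ι) → ZMod 2) (Q : ι → Prop) (hQ : ∀ i, Q i → D.T (b.hJ i) = 0)
    (B : Finset {i // Q i}) (hB : B.Nonempty) (d : {i // Q i} → ZMod 2)
    (A' : U → Prop) (B' : ι → Prop) (hA' : ∀ u, ¬ A' u)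
    (hB' : ∀ i, B' i ↔ ∃ h : Q i, (⟨i, h⟩ : {i // Q i}) ∈ B) :
    2 * (cr (gD Q (α, d)) B + 1) ≤ rk D b A' B' α + 2 * Fintype.card s := by
  rw [lap_pos _ B hB]
  have hBe : ∀ i : {i : ι // B' i},
    ∃ h : Q i, (⟨i, h⟩ : {i // Q i}) ∈ B := fun i => (hB' i).1 i.2
  have heb : Function.Bijective (fun i : {i : ι // B' i} =>
      (⟨⟨i, (hBe i).1⟩, (hBe i).2⟩ : B)) := by
    constructor
    · intro i j h
      exact Subtype.ext (congrArg (fun z : B => z.1.1) h)
    · intro j
      exact ⟨⟨j.1.1, (hB' j.1.1).2 ⟨j.1.2, j.2⟩⟩, rfl⟩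
  have hI : IsEmpty {u : U // A' u} := ⟨fun u => hA' _ u.2⟩
  have hN : ∀ i j : {i : ι // B' i}, i ≠ j →
      (sb b A' B').N D.s₀ (ra B' α) (Sum.inr i) (Sum.inr j)
      = gD Q (α, d) s((⟨i, (hBe i).1⟩ : {i // Q i}), ⟨j, (hBe j).1⟩) := by
    intro i j hij
    have hne : (⟨i, (hBe i).1⟩ : {i // Q i}) ≠ ⟨j, (hBe j).1⟩ := by
      intro h
      exact hij (Subtype.ext (congrArg (fun z : {i // Q i} => z.1) h))
    rw [gD_off Q _ _ _ _ hne, N_rr, sign_zero D hPl hS _ (hQ _ (hBe i).1), zero_mul, ite_self,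
      add_zero]
  have hT : ∀ i : {i : ι // B' i}, D.T ((sb b A' B').h (Sum.inr i)) = 0 :=
    fun i => hQ _ (hBe i).1
  exact main_abs (gD Q (α, d)) (LinearMap.ker (lap (gD Q (α, d)) B))
    (fun x hx => LinearMap.mem_ker.1 hx) _ heb D hPl.dim
    ((sb b A' B').N D.s₀ (ra B' α)) (sb b A' B').h hI hN hT

theorem main_ineq [Finite V] (D : Dj s V) (hPl : Pl D.ω) (hS : D.Sym) (b : Bk s U ι)
    (α : prs (univ : Finset ι) → ZMod 2) (Q : ι → Prop) (hQ : ∀ i, Q i → D.T (b.hJ i) = 0)
    (B : Finset {i // Q i}) (hB : B.Nonempty) (d : {i // Q i} → ZMod 2) :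
    2 * (cr (gD Q (α, d)) B + 1) ≤ rkB D b (ind Q B) α + 2 * Fintype.card s :=
  main_gen D hPl hS b α Q hQ B hB d _ _ (fun u h => h rfl) (fun i => ind_inr Q B i)

theorem filt_card {X : Type} (i1 i2 : Fintype X) (P : X → Prop) (d1 d2 : DecidablePred P) :
    (@Finset.filter X P d1 (@univ X i1)).card = (@Finset.filter X P d2 (@univ X i2)).card := by
  cases Subsingleton.elim i1 i2
  cases Subsingleton.elim d1 d2
  rfl

end main

theorem t_LBA (hLBG : S_LBG) : S_LBA := by
  intro s V _ _ _ _ D hPl hS ε hε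
  obtain ⟨n₀, hn₀⟩ := hLBG ε hε
  refine ⟨n₀, ?_⟩
  intro U ι _ _ _ b n hn hn0 k hk
  set Q : ι → Prop := fun i => D.T (b.hJ i) = 0 with hQ
  have hcard : Fintype.card {i // Q i} = n := by
    rw [hn, Fintype.card_subtype]
  have hG := hn₀ {i // Q i} (by rw [hcard]; exact hn0) k (by rw [hcard]; exact hk)
  rw [hcard] at hG
  set bd : ℝ := (2 : ℝ) ^ ((n : ℝ) - (k : ℝ) ^ 2 / 2 - ε * n) with hbd
  set P : (Sym2 {i // Q i} → ZMod 2) → Prop := fun g =>
    ((univ.filter fun B : Finset {i // Q i} => k ≤ cr g B).card : ℝ) < bd with hP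
  have key := count_affine (gD Q) (gD_surj Q) 0 P
  have hc1 : Fintype.card ((prs (univ : Finset ι) → ZMod 2) × ({i // Q i} → ZMod 2))
      = 2 ^ (prs (univ : Finset ι)).card * 2 ^ n := by
    rw [Fintype.card_prod, Fintype.card_fun, Fintype.card_fun, ZMod.card, Fintype.card_coe, hcard]
  have hc2 : Fintype.card (Sym2 {i // Q i} → ZMod 2) = 2 ^ Fintype.card (Sym2 {i // Q i}) := by
    rw [Fintype.card_fun, ZMod.card]
  rw [hc1, hc2] at key
  -- independence of the diagonal
  have hPd : ∀ (α : prs (univ : Finset ι) → ZMod 2) (d : {i // Q i} → ZMod 2),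
      P (gD Q (α, d)) ↔ P (gD Q (α, 0)) := by
    intro α d
    have : ∀ B, cr (gD Q (α, d)) B = cr (gD Q (α, 0)) B := fun B =>
      cr_congr _ _ (fun p q hpq => by rw [gD_off Q _ _ _ _ hpq, gD_off Q _ _ _ _ hpq]) B
    simp only [hP, this]
  have hprod : (univ.filter fun x => P (gD Q x + 0)).card
      = (univ.filter fun α : prs (univ : Finset ι) → ZMod 2 => P (gD Q (α, 0))).card * 2 ^ n := by
    have e1 : (univ.filter fun x : (prs (univ : Finset ι) → ZMod 2) × ({i // Q i} → ZMod 2) =>
        P (gD Q x + 0)) = (univ.filter fun α : prs (univ : Finset ι) → ZMod 2 =>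
          P (gD Q (α, 0))) ×ˢ (univ : Finset ({i // Q i} → ZMod 2)) := by
      ext x
      obtain ⟨α, d⟩ := x
      simp only [mem_filter, mem_univ, true_and, Finset.mem_product, and_true, add_zero]
      exact hPd α d
    rw [e1, Finset.card_product, Finset.card_univ, Fintype.card_fun, ZMod.card, hcard]
  rw [hprod] at key
  have key2 : (univ.filter fun α : prs (univ : Finset ι) → ZMod 2 => P (gD Q (α, 0))).card *
      2 ^ Fintype.card (Sym2 {i // Q i}) = 2 ^ (prs (univ : Finset ι)).card * (univ.filter P).card := by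
    have h2 : 0 < 2 ^ n := by positivity
    apply Nat.eq_of_mul_eq_mul_right h2
    rw [mul_right_comm, key]
    ring
  -- comparison
  have hsub : (univ.filter fun α : prs (univ : Finset ι) → ZMod 2 =>
        ((univ.filter fun σ : U ⊕ ι → ZMod 2 => 2 * k ≤ rkB D b σ α + 2 * Fintype.card s).card : ℝ) <
          bd) ⊆ (univ.filter fun α : prs (univ : Finset ι) → ZMod 2 => P (gD Q (α, 0))) := by
    intro α hα
    simp only [mem_filter, mem_univ, true_and, hP] at hα ⊢
    refine lt_of_le_of_lt ?_ hα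
    have hle : (univ.filter fun B : Finset {i // Q i} => k ≤ cr (gD Q (α, 0)) B).card ≤
        (univ.filter fun σ : U ⊕ ι → ZMod 2 => 2 * k ≤ rkB D b σ α + 2 * Fintype.card s).card := by
      refine Finset.card_le_card_of_injOn (fun B => ind Q B) ?_ ?_
      · intro B hB
        simp only [coe_filter, mem_univ, true_and, Set.mem_setOf_eq] at hB ⊢
        rcases B.eq_empty_or_nonempty with h | h
        · subst h
          have : cr (gD Q (α, 0)) ∅ = 0 := by
            unfold cr
            have h0 : finrank (ZMod 2) (LinearMap.ker (lap (gD Q (α, 0)) ∅)) ≤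
                finrank (ZMod 2) ((∅ : Finset {i // Q i}) → ZMod 2) := Submodule.finrank_le _
            rw [Module.finrank_fintype_fun_eq_card, Fintype.card_coe, Finset.card_empty] at h0
            omega
          rw [this] at hB
          omega
        · have := main_ineq D hPl hS b α Q (fun i h => h) B h 0
          omega
      · intro B _ B' _ h
        exact ind_inj Q h
    exact_mod_cast hle
  have hfinal : ((univ.filter fun α : prs (univ : Finset ι) → ZMod 2 => P (gD Q (α, 0))).card : ℝ) ≤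
      ε * 2 ^ (prs (univ : Finset ι)).card := by
    have k3 : ((univ.filter fun α : prs (univ : Finset ι) → ZMod 2 => P (gD Q (α, 0))).card : ℝ) *
      2 ^ Fintype.card (Sym2 {i // Q i}) = 2 ^ (prs (univ : Finset ι)).card * ((univ.filter P).card : ℝ) := by
      exact_mod_cast key2
    have k4 : ((univ.filter P).card : ℝ) ≤ ε * 2 ^ Fintype.card (Sym2 {i // Q i}) := by
      refine le_trans (le_of_eq ?_) hG
      exact congrArg (Nat.cast (R := ℝ)) (filt_card _ _ _ _ _)
    have k5 : (0 : ℝ) < 2 ^ Fintype.card (Sym2 {i // Q i}) := by positivity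
    have k6 : (0 : ℝ) < 2 ^ (prs (univ : Finset ι)).card := by positivity
    have k7 : ((univ.filter fun α : prs (univ : Finset ι) → ZMod 2 => P (gD Q (α, 0))).card : ℝ) *
      2 ^ Fintype.card (Sym2 {i // Q i}) ≤ (ε * 2 ^ (prs (univ : Finset ι)).card) *
        2 ^ Fintype.card (Sym2 {i // Q i}) := by
      rw [k3]
      calc _ ≤ 2 ^ (prs (univ : Finset ι)).card * (ε * 2 ^ Fintype.card (Sym2 {i // Q i})) :=
            mul_le_mul_of_nonneg_left k4 k6.le
        _ = _ := by ring
    exact le_of_mul_le_mul_right k7 k5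
  refine le_trans ?_ hfinal
  exact_mod_cast Finset.card_le_card hsub

end Pool.Agent.Q65.MX
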